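import Pool.Agent.T6.H1.Pm.One
import Pool.Agent.T6.H1.Sm.Fin

/-! # Shifted products of the elements of two arbitrary sets: the theorem -/

set_option autoImplicit false

namespace Pool.Agent.T6.H1.Pm

open Finset Filter Topology
open Pool.Agent.R459.Eq (co mean Per small_ev pi_lower')
open Pool.Agent.R318.PR (GP mem_GP GP_card_ge qu cnt_pri pri dens_close)
open Pool.Agent.H386R2.Artin (artinC)
open Pool.Agent.H730R2.AA (cnt)
open Pool.Agent.H730R2.AA.Grid (cnt_mono)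
open Pool.Agent.TH893.BR (Bs datB datB_A)
open Pool.Agent.T6.H1.Sm hiding final

open Classical in
/-- **the theorem for shifted products** -/
theorem final (B : ℤ) (r : ℕ) (δ : ℝ) (hBr : Base B r δ) (η : ℝ) (hη : 0 < η) (hη1 : η ≤ 1)
    (ε : ℝ) (hε : 0 < ε) : ∃ (C : ℝ) (X₀ : ℕ), 0 < C ∧ ∀ (Y N₀ : ℕ) (c : ℤ) (U V : Finset ℤ), X₀ ≤ Y → 1 ≤ N₀ → c ≠ 0 → |c| ≤ N₀ →
      (∀ u ∈ U, u ≠ 0 ∧ |u| ≤ N₀) → (∀ v ∈ V, v ≠ 0 ∧ |v| ≤ N₀) → Real.log (2 * N₀) ^ (2 + η) ≤ Y →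
      (((U ×ˢ V).filter (fun z => ∃ x : ℕ, Y ≤ x ∧ Cd η (Real.log (2 * N₀)) U.card V.card x ∧
        ∃ D s : ℤ, Squarefree D ∧ s ≠ 0 ∧ B * (z.1 * z.2 + c) ^ r = D * s ^ 2 ∧
        ε * (Nat.primeCounting x : ℝ) < |(cnt (B * (z.1 * z.2 + c) ^ r) x : ℝ) - dl D * Nat.primeCounting x|)).card : ℝ) ≤
        C * (Y : ℝ) ^ (-(η / 16)) * (U.card * V.card) := by
  obtain ⟨M, hF⟩ := hBr.fam
  have hKc : ∀ v x, |((cnt (B * v ^ r) x : ℕ) : ℝ) - ∑ p ∈ GP M x, fB B r p v| ≤ (M.primeFactors.card : ℝ) := by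
    intro v x
    have h1 := cnt_pri M hF.hM (B * v ^ r) x
    exact h1
  by_cases h2r : 2 ∣ r
  · -- even exponents
    obtain ⟨C, X₀, hC, _, h⟩ := all_prod M _ δ hF (fun v x => cnt (B * v ^ r) x) (fun v => fun x y hxy => cnt_mono _ hxy)
      _ hKc η hη hη1 ε hε
    refine ⟨C, X₀, hC, fun Y N₀ c U V hY hN₀ hc0 hcN hU hV hLY => ?_⟩
    refine le_trans ?_ (h Y N₀ c U V hY hN₀ hc0 hcN hU hV hLY)
    have hsub : (U ×ˢ V).filter (fun z => ∃ x : ℕ, Y ≤ x ∧ Cd η (Real.log (2 * N₀)) U.card V.card x ∧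
        ∃ D s : ℤ, Squarefree D ∧ s ≠ 0 ∧ B * (z.1 * z.2 + c) ^ r = D * s ^ 2 ∧
        ε * (Nat.primeCounting x : ℝ) < |(cnt (B * (z.1 * z.2 + c) ^ r) x : ℝ) - dl D * Nat.primeCounting x|) ⊆
        (U ×ˢ V).filter (fun z => ∃ x : ℕ, Y ≤ x ∧ Cd η (Real.log (2 * N₀)) U.card V.card x ∧
        ε * (Nat.primeCounting x : ℝ) < |(cnt (B * (z.1 * z.2 + c) ^ r) x : ℝ) - δ * Nat.primeCounting x|) := by
      intro z hz
      rw [mem_filter] at hz ⊢
      obtain ⟨hz1, x, hx1, hx2, D, s, hD, hs, hDs, hx3⟩ := hz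
      refine ⟨hz1, x, hx1, hx2, ?_⟩
      rw [hBr.even h2r _ D s hD hs hDs]
      exact hx3
    exact_mod_cast card_le_card hsub
  · -- odd exponents
    have hδ := hBr.odd h2r
    rw [hδ] at hF
    obtain ⟨C, X₀, hC, _, h⟩ := all_prod M _ artinC hF (fun v x => cnt (B * v ^ r) x)
      (fun v => fun x y hxy => cnt_mono _ hxy) _ hKc η hη hη1 (ε / 2) (by positivity)
    obtain ⟨K, hK⟩ := exists_nat_ge (2 / ε : ℝ)
    have h2 : ∀ D : ℤ, ∃ (C : ℝ) (X₀ : ℕ), 0 < C ∧ (D ≠ 0 → ∀ (Y N₀ : ℕ) (c : ℤ) (U V : Finset ℤ), X₀ ≤ Y → 1 ≤ N₀ → c ≠ 0 → |c| ≤ N₀ →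
      (∀ u ∈ U, u ≠ 0 ∧ |u| ≤ N₀) → (∀ v ∈ V, v ≠ 0 ∧ |v| ≤ N₀) → Real.log (2 * N₀) ^ (2 + η) ≤ Y →
      (((U ×ˢ V).filter (fun z => ∃ x : ℕ, Y ≤ x ∧ Cd η (Real.log (2 * N₀)) U.card V.card x ∧
        ∃ w : ℤ, D * (z.1 * z.2 + c) = w ^ 2)).card : ℝ) ≤
        C * (Y : ℝ) ^ (-(η / 16)) * (U.card * V.card)) := by
      intro D
      by_cases hD : D = 0
      · exact ⟨1, 1, one_pos, fun h => absurd hD h⟩
      · obtain ⟨C, X₀, hC, _, h⟩ := all_prod _ _ (1 / 2) (fam_qu D hD) (fun v x => NQ (D.natAbs + 1).factorial D v x)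
          (fun v => NQ_mono _ D v) 0 (fun v x => by rw [NQ_eq, sub_self, abs_zero]) η hη hη1 (1 / 4) (by norm_num)
        obtain ⟨X1, hX14, hX1⟩ := small_ev ((D.natAbs + 1).factorial.primeFactors.card : ℝ) (1 / 8) (by norm_num)
        refine ⟨C, max X₀ X1, hC, fun _ Y N₀ c U V hY hN₀ hc0 hcN hU hV hLY => ?_⟩
        refine le_trans ?_ (h Y N₀ c U V ((le_max_left _ _).trans hY) hN₀ hc0 hcN hU hV hLY)
        have hsub : (U ×ˢ V).filter (fun z => ∃ x : ℕ, Y ≤ x ∧ Cd η (Real.log (2 * N₀)) U.card V.card x ∧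
            ∃ w : ℤ, D * (z.1 * z.2 + c) = w ^ 2) ⊆
            (U ×ˢ V).filter (fun z => ∃ x : ℕ, Y ≤ x ∧ Cd η (Real.log (2 * N₀)) U.card V.card x ∧
            1 / 4 * (Nat.primeCounting x : ℝ) <
              |(NQ (D.natAbs + 1).factorial D (z.1 * z.2 + c) x : ℝ) - 1 / 2 * Nat.primeCounting x|) := by
          intro z hz
          rw [mem_filter] at hz ⊢
          obtain ⟨hz1, x, hx1, hx2, w, hw⟩ := hz
          refine ⟨hz1, x, hx1, hx2, ?_⟩
          have hxX1 : X1 ≤ x := ((le_max_right _ _).trans hY).trans hx1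
          have hx4 : 4 ≤ x := hX14.trans hxX1
          have hpos := (pi_lower' x hx4).1
          have h3 := hX1 x hxX1
          have h8 : 0 ≤ Real.log x := Real.log_nonneg (by exact_mod_cast (by omega : 1 ≤ x))
          have h4 := GP_card_ge (D.natAbs + 1).factorial (Nat.factorial_ne_zero _) x
          rw [NQ_sq _ _ _ w hw]
          refine lt_of_lt_of_le ?_ (le_abs_self _)
          linarith
        exact_mod_cast card_le_card hsub
    choose C₂ X₂ hC₂ J₂ using h2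
    obtain ⟨R, hR⟩ : ∃ R : Finset ℤ, R = (Icc (-(K : ℤ)) K).filter (fun D => D ≠ 0) := ⟨_, rfl⟩
    refine ⟨C + ∑ D ∈ R, C₂ (D * B), X₀ + ∑ D ∈ R, X₂ (D * B), ?_, ?_⟩
    · have : 0 ≤ ∑ D ∈ R, C₂ (D * B) := sum_nonneg fun D _ => (hC₂ _).le
      linarith
    intro Y N₀ c U V hY hN₀ hc0 hcN hU hV hLY
    obtain ⟨EE, hEE⟩ : ∃ EE : ℤ → Finset (ℤ × ℤ), EE = fun D => (U ×ˢ V).filter (fun z => ∃ x : ℕ, Y ≤ x ∧
        Cd η (Real.log (2 * N₀)) U.card V.card x ∧ ∃ w : ℤ, (D * B) * (z.1 * z.2 + c) = w ^ 2) := ⟨_, rfl⟩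
    obtain ⟨E₁, hE₁⟩ : ∃ E₁, E₁ = (U ×ˢ V).filter (fun z => ∃ x : ℕ, Y ≤ x ∧ Cd η (Real.log (2 * N₀)) U.card V.card x ∧
        ε / 2 * (Nat.primeCounting x : ℝ) < |(cnt (B * (z.1 * z.2 + c) ^ r) x : ℝ) - artinC * Nat.primeCounting x|) :=
      ⟨_, rfl⟩
    have hcover : (U ×ˢ V).filter (fun z => ∃ x : ℕ, Y ≤ x ∧ Cd η (Real.log (2 * N₀)) U.card V.card x ∧
        ∃ D s : ℤ, Squarefree D ∧ s ≠ 0 ∧ B * (z.1 * z.2 + c) ^ r = D * s ^ 2 ∧
        ε * (Nat.primeCounting x : ℝ) < |(cnt (B * (z.1 * z.2 + c) ^ r) x : ℝ) - dl D * Nat.primeCounting x|) ⊆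
        E₁ ∪ R.biUnion EE := by
      intro z hz
      rw [mem_filter] at hz
      obtain ⟨hz1, x, hx1, hx2, D, s, hD, hs, hDs, hx3⟩ := hz
      rw [mem_union]
      by_cases hsm : D.natAbs ≤ K
      · right
        rw [mem_biUnion]
        refine ⟨D, ?_, ?_⟩
        · rw [hR, mem_filter, mem_Icc]
          exact ⟨by omega, hD.ne_zero⟩
        · rw [hEE, mem_filter]
          refine ⟨hz1, x, hx1, hx2, ?_⟩
          -- `D B n` is a square
          obtain ⟨t, ht⟩ : ∃ t, r = 2 * t + 1 := ⟨r / 2, by omega⟩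
          have hn0 : z.1 * z.2 + c ≠ 0 := by
            intro h0
            rw [h0, zero_pow (by omega), mul_zero] at hDs
            exact mul_ne_zero hD.ne_zero (pow_ne_zero _ hs) hDs.symm
          have h3 : (D * B) * (z.1 * z.2 + c) * ((z.1 * z.2 + c) ^ t) ^ 2 = (D * s) ^ 2 := by
            have h4 : B * (z.1 * z.2 + c) ^ r = B * (z.1 * z.2 + c) * ((z.1 * z.2 + c) ^ t) ^ 2 := by
              rw [ht]; ring
            calc (D * B) * (z.1 * z.2 + c) * ((z.1 * z.2 + c) ^ t) ^ 2 = D * (B * (z.1 * z.2 + c) ^ r) := by rw [h4]; ring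
              _ = D * (D * s ^ 2) := by rw [hDs]
              _ = _ := by ring
          have h4 : ((z.1 * z.2 + c) ^ t) ^ 2 ∣ (D * s) ^ 2 := ⟨(D * B) * (z.1 * z.2 + c), by rw [← h3]; ring⟩
          have h5 : (z.1 * z.2 + c) ^ t ∣ D * s := (Int.pow_dvd_pow_iff two_ne_zero).1 h4
          obtain ⟨w, hw⟩ := h5
          refine ⟨w, ?_⟩
          have h6 : ((z.1 * z.2 + c) ^ t) ^ 2 ≠ 0 := pow_ne_zero _ (pow_ne_zero _ hn0)
          have h7 : ((D * B) * (z.1 * z.2 + c) - w ^ 2) * ((z.1 * z.2 + c) ^ t) ^ 2 = 0 := by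
            rw [sub_mul, h3, hw]; ring
          rcases mul_eq_zero.1 h7 with h8 | h8
          · linarith
          · exact absurd h8 h6
      · left
        rw [hE₁, mem_filter]
        refine ⟨hz1, x, hx1, hx2, ?_⟩
        have hclose : |dl D - artinC| ≤ ε / 2 := by
          unfold dl
          split_ifs with h4
          · refine (dens_close D hD h4).trans ?_
            have h5 : (2 / ε : ℝ) ≤ (D.natAbs : ℝ) := by
              refine hK.trans ?_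
              exact_mod_cast (by omega : K ≤ D.natAbs)
            have h6 : (0 : ℝ) < 2 / ε := by positivity
            calc 1 / (D.natAbs : ℝ) ≤ 1 / (2 / ε) := one_div_le_one_div_of_le h6 h5
              _ = ε / 2 := by field_simp
          · rw [sub_self, abs_zero]
            positivity
        have h7 := abs_sub_le (cnt (B * (z.1 * z.2 + c) ^ r) x : ℝ) (artinC * (Nat.primeCounting x : ℝ))
          (dl D * (Nat.primeCounting x : ℝ))
        have h8 : |artinC * (Nat.primeCounting x : ℝ) - dl D * (Nat.primeCounting x : ℝ)| ≤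
            ε / 2 * (Nat.primeCounting x : ℝ) := by
          rw [abs_sub_comm, ← sub_mul, abs_mul, Nat.abs_cast]
          exact mul_le_mul_of_nonneg_right hclose (Nat.cast_nonneg _)
        linarith
    have hYX₀ : X₀ ≤ Y := by omega
    have h4 : (E₁.card : ℝ) ≤ C * (Y : ℝ) ^ (-(η / 16)) * (U.card * V.card) := by
      rw [hE₁]
      exact h Y N₀ c U V hYX₀ hN₀ hc0 hcN hU hV hLY
    have h5 : ∀ D ∈ R, ((EE D).card : ℝ) ≤ C₂ (D * B) * ((Y : ℝ) ^ (-(η / 16)) * (U.card * V.card)) := by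
      intro D hD
      have hD0 : D * B ≠ 0 := by
        rw [hR, mem_filter] at hD
        exact mul_ne_zero hD.2 hBr.hB
      have hXD : X₂ (D * B) ≤ Y := by
        have := single_le_sum (f := fun D => X₂ (D * B)) (fun _ _ => Nat.zero_le _) hD
        omega
      have h6 := J₂ (D * B) hD0 Y N₀ c U V hXD hN₀ hc0 hcN hU hV hLY
      rw [hEE]
      refine h6.trans (le_of_eq ?_)
      ring
    have h6 : (((U ×ˢ V).filter (fun z => ∃ x : ℕ, Y ≤ x ∧ Cd η (Real.log (2 * N₀)) U.card V.card x ∧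
        ∃ D s : ℤ, Squarefree D ∧ s ≠ 0 ∧ B * (z.1 * z.2 + c) ^ r = D * s ^ 2 ∧
        ε * (Nat.primeCounting x : ℝ) < |(cnt (B * (z.1 * z.2 + c) ^ r) x : ℝ) - dl D * Nat.primeCounting x|)).card : ℝ) ≤
        E₁.card + ∑ D ∈ R, ((EE D).card : ℝ) := by
      have h7 := (card_le_card hcover).trans ((card_union_le _ _).trans (add_le_add_right card_biUnion_le _))
      exact_mod_cast h7
    have h7 := sum_le_sum h5
    rw [← sum_mul] at h7
    have e : (C + ∑ D ∈ R, C₂ (D * B)) * (Y : ℝ) ^ (-(η / 16)) * (U.card * V.card) =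
        C * (Y : ℝ) ^ (-(η / 16)) * (U.card * V.card) +
        (∑ D ∈ R, C₂ (D * B)) * ((Y : ℝ) ^ (-(η / 16)) * (U.card * V.card)) := by ring
    rw [e]
    linarith

end Pool.Agent.T6.H1.Pm
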