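import Pool.Agent.T6.H1.Sm.Four
import Mathlib.NumberTheory.JacobiSum.Basic

/-! # Multiplicative Fourier coefficients of shifted conditions -/

set_option autoImplicit false

namespace Pool.Agent.T6.H1.Pm

open Finset
open Pool.Agent.R459.Eq (mean Per)
open Pool.Agent.H730R2.AA.Exp
open Pool.Agent.T6.H1.Sm (Rep norm_gauss)

variable {p : ℕ} [hp : Fact p.Prime]

lemma norm_gauss_eq {χ : DirichletCharacter ℂ p} (hχ : χ ≠ 1) (ψ : AddChar (ZMod p) ℂ) (hψ : ψ.IsPrimitive) :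
    ‖gaussSum χ ψ‖ = Real.sqrt p := by
  have h1 := gaussSum_mul_gaussSum_eq_card hχ hψ
  rw [← star_gaussSum_eq, ZMod.card] at h1
  have h2 : ((‖gaussSum χ ψ‖ ^ 2 : ℝ) : ℂ) = ((p : ℝ) : ℂ) := by
    rw [← Complex.normSq_eq_norm_sq, Complex.normSq_eq_conj_mul_self, mul_comm]
    rw [← starRingEnd_apply] at h1
    rw [h1]
    push_cast
    rfl
  have h3 : ‖gaussSum χ ψ‖ ^ 2 = p := by exact_mod_cast h2
  rw [← h3, Real.sqrt_sq (norm_nonneg _)]

/-- the norm of a Jacobi sum -/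
lemma norm_jacobi (ψ χ : DirichletCharacter ℂ p) (hψ : ψ ≠ 1) : ‖jacobiSum ψ χ‖ ≤ Real.sqrt p := by
  have hp1 : (1 : ℝ) ≤ p := by exact_mod_cast hp.out.one_le
  have hp0 : (0 : ℝ) < p := by linarith
  have hs1 : 1 ≤ Real.sqrt p := by rw [Real.one_le_sqrt]; exact hp1
  by_cases hχ : χ = 1
  · rw [hχ, jacobiSum_comm, jacobiSum_one_nontrivial hψ, norm_neg, norm_one]
    exact hs1
  by_cases h : ψ * χ = 1
  · have h1 : χ = ψ⁻¹ := by
      rw [mul_comm] at h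
      exact eq_inv_of_mul_eq_one_left h
    rw [h1, jacobiSum_nontrivial_inv hψ, norm_neg]
    exact (DirichletCharacter.norm_le_one ψ _).trans hs1
  · have h1 := jacobiSum_mul_nontrivial h (ZMod.stdAddChar (N := p))
    have h2 := congrArg norm h1
    have hprim := ZMod.isPrimitive_stdAddChar p
    rw [norm_mul, norm_mul, norm_gauss_eq h _ hprim, norm_gauss_eq hψ _ hprim, norm_gauss_eq hχ _ hprim] at h2
    have hs0 : 0 < Real.sqrt p := by linarith
    exact (mul_left_cancel₀ hs0.ne' h2).le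

/-- sums of two characters -/
lemma sum_shift (ψ χ : DirichletCharacter ℂ p) (hψ : ψ ≠ 1) (c : ZMod p) (hc : c ≠ 0) :
    ‖∑ x : ZMod p, χ (x + c) * ψ x‖ ≤ Real.sqrt p := by
  have e : ∑ x : ZMod p, χ (x + c) * ψ x = χ c * ψ (-c) * jacobiSum ψ χ := by
    unfold jacobiSum
    rw [mul_sum]
    have hc' : -c ≠ 0 := neg_ne_zero.2 hc
    rw [← Equiv.sum_comp (Equiv.mulLeft₀ (-c) hc')]
    apply sum_congr rfl
    intro y _
    have e0 : (Equiv.mulLeft₀ (-c) hc') y = -c * y := rfl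
    rw [e0]
    have e1 : -c * y + c = c * (1 - y) := by ring
    rw [e1, map_mul, map_mul]
    ring
  rw [e, norm_mul, norm_mul]
  have h1 := DirichletCharacter.norm_le_one χ c
  have h2 := DirichletCharacter.norm_le_one ψ (-c)
  calc ‖χ c‖ * ‖ψ (-c)‖ * ‖jacobiSum ψ χ‖ ≤ 1 * 1 * Real.sqrt p := by
        have := norm_jacobi ψ χ hψ
        gcongr
    _ = _ := by ring

/-- the shifted function on the units -/
noncomputable def sh (c : ℤ) (f : ℤ → ℝ) (u : (ZMod p)ˣ) : ℂ := (f (((u : ZMod p).val : ℤ) + c) : ℂ)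

/-- **the multiplicative Fourier coefficients of the shifted function** -/
theorem fc_sh (f : ℤ → ℝ) (hf : ∀ n, 0 ≤ f n ∧ f n ≤ 1) (hper : Per p f) (S : ℝ) (h : Rep p f S) (c : ℤ)
    (hc : ¬ (p : ℤ) ∣ c) (ψ : DirichletCharacter ℂ p) (hψ : ψ ≠ 1) :
    ‖fc (sh c f) ψ‖ ≤ 2 * (S + 1) / Real.sqrt p := by
  classical
  obtain ⟨β, h1, h2⟩ := h
  have hp0 : (0 : ℝ) < p := by exact_mod_cast hp.out.pos
  have hp2 : (2 : ℝ) ≤ p := by exact_mod_cast hp.out.two_le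
  have hs0 : 0 < Real.sqrt p := Real.sqrt_pos.2 hp0
  have hs1 : 1 ≤ Real.sqrt p := by rw [Real.one_le_sqrt]; linarith
  have hc0 : ((c : ℤ) : ZMod p) ≠ 0 := by
    rw [Ne, ZMod.intCast_zmod_eq_zero_iff_dvd]
    exact hc
  have hψ' : ψ⁻¹ ≠ 1 := fun h => hψ (inv_eq_one.1 h)
  -- the value of the shifted function
  have hval : ∀ x : ZMod p, (f ((x.val : ℤ) + c) : ℂ) =
      (if x = -((c : ℤ) : ZMod p) then (f 0 : ℂ) else 0) + ∑ χ, β χ * χ (x + ((c : ℤ) : ZMod p)) := by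
    intro x
    by_cases hx : x = -((c : ℤ) : ZMod p)
    · rw [if_pos hx]
      have hx0 : x + ((c : ℤ) : ZMod p) = 0 := by rw [hx]; ring
      have e1 : ∑ χ : DirichletCharacter ℂ p, β χ * χ (x + ((c : ℤ) : ZMod p)) = 0 := by
        apply sum_eq_zero
        intro χ _
        rw [hx0, MulChar.map_zero, mul_zero]
      rw [e1, add_zero]
      congr 1
      apply hper
      rw [sub_zero, ← ZMod.intCast_zmod_eq_zero_iff_dvd]
      push_cast
      rw [ZMod.natCast_zmod_val]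
      exact hx0
    · rw [if_neg hx, zero_add]
      have hnd : ¬ (p : ℤ) ∣ (x.val : ℤ) + c := by
        rw [← ZMod.intCast_zmod_eq_zero_iff_dvd]
        push_cast
        rw [ZMod.natCast_zmod_val]
        intro h
        exact hx (eq_neg_of_add_eq_zero_left h)
      rw [h1 _ hnd]
      apply sum_congr rfl
      intro χ _
      push_cast
      rw [ZMod.natCast_zmod_val]
  have e1 : ∑ u : (ZMod p)ˣ, sh c f u * ψ ((u⁻¹ : (ZMod p)ˣ) : ZMod p) =
      ∑ x : ZMod p, (f ((x.val : ℤ) + c) : ℂ) * ψ⁻¹ x := by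
    symm
    rw [← sum_filter_add_sum_filter_not univ (fun x : ZMod p => IsUnit x)]
    have e2 : ∑ x ∈ univ.filter (fun x : ZMod p => ¬ IsUnit x), (f ((x.val : ℤ) + c) : ℂ) * ψ⁻¹ x = 0 := by
      apply sum_eq_zero
      intro x hx
      rw [MulChar.map_nonunit _ (mem_filter.1 hx).2, mul_zero]
    rw [e2, add_zero]
    symm
    refine sum_nbij (fun u : (ZMod p)ˣ => (u : ZMod p)) ?_ ?_ ?_ ?_
    · intro u _
      exact mem_filter.2 ⟨mem_univ _, u.isUnit⟩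
    · intro u _ v _ huv
      exact Units.ext huv
    · intro x hx
      rw [mem_coe, mem_filter] at hx
      obtain ⟨u, hu⟩ := hx.2
      exact ⟨u, mem_coe.2 (mem_univ _), hu⟩
    · intro u _
      unfold sh
      congr 1
      rw [Units.val_inv_eq_inv_val, MulChar.inv_apply']
  have e2 : ∑ x : ZMod p, (f ((x.val : ℤ) + c) : ℂ) * ψ⁻¹ x =
      (f 0 : ℂ) * ψ⁻¹ (-((c : ℤ) : ZMod p)) +
        ∑ χ : DirichletCharacter ℂ p, β χ * ∑ x : ZMod p, χ (x + ((c : ℤ) : ZMod p)) * ψ⁻¹ x := by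
    have e3 : ∀ x : ZMod p, (f ((x.val : ℤ) + c) : ℂ) * ψ⁻¹ x =
        (if x = -((c : ℤ) : ZMod p) then (f 0 : ℂ) * ψ⁻¹ x else 0) +
          ∑ χ, β χ * (χ (x + ((c : ℤ) : ZMod p)) * ψ⁻¹ x) := by
      intro x
      rw [hval x, add_mul, ite_mul, zero_mul, sum_mul]
      congr 1
      exact sum_congr rfl fun χ _ => by ring
    rw [sum_congr rfl (fun x _ => e3 x), sum_add_distrib, sum_ite_eq', if_pos (mem_univ _), sum_comm]
    congr 1
    apply sum_congr rfl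
    intro χ _
    rw [mul_sum]
  unfold fc
  rw [e1, e2, norm_mul, norm_inv, Complex.norm_natCast]
  have h3 : ‖(f 0 : ℂ) * ψ⁻¹ (-((c : ℤ) : ZMod p)) +
        ∑ χ : DirichletCharacter ℂ p, β χ * ∑ x : ZMod p, χ (x + ((c : ℤ) : ZMod p)) * ψ⁻¹ x‖ ≤
      (S + 1) * Real.sqrt p := by
    refine (norm_add_le _ _).trans ?_
    have h4 : ‖(f 0 : ℂ) * ψ⁻¹ (-((c : ℤ) : ZMod p))‖ ≤ 1 * Real.sqrt p := by
      rw [norm_mul, Complex.norm_real, Real.norm_eq_abs, abs_of_nonneg (hf 0).1]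
      have h5 := DirichletCharacter.norm_le_one ψ⁻¹ (-((c : ℤ) : ZMod p))
      have h6 := (hf 0).1
      have h7 := (hf 0).2
      calc f 0 * ‖ψ⁻¹ (-((c : ℤ) : ZMod p))‖ ≤ 1 * 1 := mul_le_mul h7 h5 (norm_nonneg _) zero_le_one
        _ ≤ 1 * Real.sqrt p := by linarith
    have h5 : ‖∑ χ : DirichletCharacter ℂ p, β χ * ∑ x : ZMod p, χ (x + ((c : ℤ) : ZMod p)) * ψ⁻¹ x‖ ≤
        S * Real.sqrt p := by
      refine (norm_sum_le _ _).trans ?_
      calc ∑ χ : DirichletCharacter ℂ p, ‖β χ * ∑ x : ZMod p, χ (x + ((c : ℤ) : ZMod p)) * ψ⁻¹ x‖ ≤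
          ∑ χ : DirichletCharacter ℂ p, ‖β χ‖ * Real.sqrt p := by
            apply sum_le_sum
            intro χ _
            rw [norm_mul]
            exact mul_le_mul_of_nonneg_left (sum_shift _ χ hψ' _ hc0) (norm_nonneg _)
        _ = (∑ χ : DirichletCharacter ℂ p, ‖β χ‖) * Real.sqrt p := by rw [sum_mul]
        _ ≤ _ := mul_le_mul_of_nonneg_right h2 hs0.le
    linarith
  have hS0 : 0 ≤ S := (sum_nonneg fun _ _ => norm_nonneg _).trans h2
  have hcast : ((p - 1 : ℕ) : ℝ) = p - 1 := by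
    rw [Nat.cast_sub hp.out.one_le, Nat.cast_one]
  rw [hcast]
  have h6 : ((p : ℝ) - 1)⁻¹ ≤ 2 / p := by
    rw [inv_eq_one_div, div_le_div_iff₀ (by linarith) hp0]
    linarith
  have h7 : 0 ≤ ((p : ℝ) - 1)⁻¹ := inv_nonneg.2 (by linarith)
  calc ((p : ℝ) - 1)⁻¹ * _ ≤ 2 / p * ((S + 1) * Real.sqrt p) := mul_le_mul h6 h3 (norm_nonneg _) (by positivity)
    _ = 2 * (S + 1) / Real.sqrt p := by
        rw [eq_div_iff hs0.ne']
        calc 2 / (p : ℝ) * ((S + 1) * Real.sqrt p) * Real.sqrt p =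
            2 / (p : ℝ) * (S + 1) * (Real.sqrt p * Real.sqrt p) := by ring
          _ = 2 * (S + 1) := by
            rw [Real.mul_self_sqrt hp0.le]
            field_simp

end Pool.Agent.T6.H1.Pm
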