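import Pool.Agent.T6.H1.Pm.Jac
import Pool.Agent.T6.H1.Sm.Mom

/-! # The second moment over the shifted products of the elements of two sets -/

set_option autoImplicit false

namespace Pool.Agent.T6.H1.Pm

open Finset
open Pool.Agent.R459.Eq (mean Per)
open Pool.Agent.H730R2.AA.Exp
open Pool.Agent.T6.H1.Sm (Rep coll sum_coll)

/-- the mean of the shifted function over the nonzero residues -/
noncomputable def mu (p : ℕ) (c : ℤ) (f : ℤ → ℝ) : ℝ := (∑ t ∈ Ico 1 p, f ((t : ℤ) + c)) / ((p - 1 : ℕ) : ℝ)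

open Classical in
/-- the centred shifted function -/
noncomputable def Gc (p : ℕ) (c : ℤ) (f : ℤ → ℝ) (m : ℤ) : ℝ := if (p : ℤ) ∣ m then 0 else f (m + c) - mu p c f

lemma mu_mem (p : ℕ) (hp : 2 ≤ p) (c : ℤ) (f : ℤ → ℝ) (hf : ∀ n, 0 ≤ f n ∧ f n ≤ 1) :
    0 ≤ mu p c f ∧ mu p c f ≤ 1 := by
  have hp0 : (0 : ℝ) < ((p - 1 : ℕ) : ℝ) := by exact_mod_cast (by omega : 0 < p - 1)
  unfold mu
  constructor
  · exact div_nonneg (sum_nonneg fun t _ => (hf _).1) hp0.le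
  · rw [div_le_one hp0]
    refine (sum_le_card_nsmul _ _ 1 fun t _ => (hf _).2).trans ?_
    rw [Nat.card_Ico, nsmul_eq_mul, mul_one]

lemma Gc_abs (p : ℕ) (hp : 2 ≤ p) (c : ℤ) (f : ℤ → ℝ) (hf : ∀ n, 0 ≤ f n ∧ f n ≤ 1) (m : ℤ) :
    |Gc p c f m| ≤ 1 := by
  unfold Gc
  split_ifs
  · simp
  · have h1 := hf (m + c)
    have h2 := mu_mem p hp c f hf
    rw [abs_le]
    constructor <;> linarith [h1.1, h1.2, h2.1, h2.2]

section
variable {p : ℕ} [hp : Fact p.Prime]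

lemma fc_one (c : ℤ) (f : ℤ → ℝ) : fc (sh (p := p) c f) 1 = ((mu p c f : ℝ) : ℂ) := by
  unfold fc mu
  have h1 : ∑ u : (ZMod p)ˣ, sh c f u * (1 : DirichletCharacter ℂ p) ((u⁻¹ : (ZMod p)ˣ) : ZMod p) =
      ((∑ t ∈ Ico 1 p, f ((t : ℤ) + c) : ℝ) : ℂ) := by
    rw [Complex.ofReal_sum]
    refine sum_bij' (fun u _ => (u : ZMod p).val) (fun t ht => ZMod.unitOfCoprime t
        (Nat.coprime_of_lt_prime (by have := mem_Ico.1 ht; omega) (mem_Ico.1 ht).2 hp.out).symm) ?_ ?_ ?_ ?_ ?_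
    · intro u _
      rw [mem_Ico]
      refine ⟨?_, ZMod.val_lt _⟩
      rw [Nat.one_le_iff_ne_zero, Ne, ZMod.val_eq_zero]
      exact u.ne_zero
    · intro t _
      exact mem_univ _
    · intro u _
      apply Units.ext
      rw [ZMod.coe_unitOfCoprime, ZMod.natCast_zmod_val]
    · intro t ht
      rw [ZMod.coe_unitOfCoprime, ZMod.val_natCast, Nat.mod_eq_of_lt (mem_Ico.1 ht).2]
    · intro u _
      rw [MulChar.one_apply_coe, mul_one]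
      rfl
  rw [h1]
  push_cast
  rw [div_eq_mul_inv, mul_comm]

/-- the centred function as a sum of nontrivial characters -/
lemma Gc_eq (c : ℤ) (f : ℤ → ℝ) (hper : Per p f) (m : ℤ) :
    ((Gc p c f m : ℝ) : ℂ) = ∑ ψ ∈ univ.filter (fun ψ : DirichletCharacter ℂ p => ψ ≠ 1),
      fc (sh c f) ψ * ψ (m : ZMod p) := by
  classical
  unfold Gc
  by_cases hm : (p : ℤ) ∣ m
  · rw [if_pos hm]
    have hm0 : ((m : ℤ) : ZMod p) = 0 := (ZMod.intCast_zmod_eq_zero_iff_dvd m p).2 hm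
    rw [Complex.ofReal_zero]
    symm
    apply sum_eq_zero
    intro ψ _
    rw [hm0, MulChar.map_zero, mul_zero]
  · rw [if_neg hm]
    have hm0 : IsUnit ((m : ℤ) : ZMod p) := by
      rw [isUnit_iff_ne_zero, Ne, ZMod.intCast_zmod_eq_zero_iff_dvd]
      exact hm
    obtain ⟨a, ha⟩ := hm0
    have h1 := fc_inv (p := p) (sh c f) a
    have h2 : sh c f a = ((f (m + c) : ℝ) : ℂ) := by
      unfold sh
      congr 1
      apply hper
      rw [← ZMod.intCast_zmod_eq_zero_iff_dvd]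
      push_cast
      rw [ZMod.natCast_zmod_val, ha]
      ring
    rw [h2, ha, ← sum_filter_add_sum_filter_not univ (fun ψ : DirichletCharacter ℂ p => ψ ≠ 1)] at h1
    have h3 : univ.filter (fun ψ : DirichletCharacter ℂ p => ¬ ψ ≠ 1) = {1} := by
      ext ψ
      simp
    rw [h3, sum_singleton, fc_one, MulChar.one_apply (by rw [← ha]; exact a.isUnit), mul_one] at h1
    rw [Complex.ofReal_sub, ← h1]
    ring

/-- orthogonality -/
lemma orth (u u' : ℤ) : ∑ ψ : DirichletCharacter ℂ p, ψ (u : ZMod p) * (starRingEnd ℂ) (ψ (u' : ZMod p)) =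
    (((if (¬ (p : ℤ) ∣ u') ∧ (p : ℤ) ∣ u - u' then ((p : ℝ) - 1) else 0) : ℝ) : ℂ) := by
  by_cases hu : (p : ℤ) ∣ u'
  · have h0 : ((u' : ℤ) : ZMod p) = 0 := (ZMod.intCast_zmod_eq_zero_iff_dvd u' p).2 hu
    rw [if_neg (fun h => h.1 hu), Complex.ofReal_zero]
    apply sum_eq_zero
    intro ψ _
    rw [h0, MulChar.map_zero, map_zero, mul_zero]
  · have hu0 : IsUnit ((u' : ℤ) : ZMod p) := by
      rw [isUnit_iff_ne_zero, Ne, ZMod.intCast_zmod_eq_zero_iff_dvd]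
      exact hu
    have h := DirichletCharacter.sum_char_inv_mul_char_eq ℂ (n := p) hu0 ((u : ℤ) : ZMod p)
    rw [Nat.totient_prime hp.out] at h
    have h1 : ∀ ψ : DirichletCharacter ℂ p, ψ (u : ZMod p) * (starRingEnd ℂ) (ψ (u' : ZMod p)) =
        ψ ((u' : ZMod p)⁻¹) * ψ (u : ZMod p) := by
      intro ψ
      rw [mul_comm]
      congr 1
      rw [← MulChar.inv_apply', ← MulChar.star_eq_inv, MulChar.star_apply]
      rfl
    rw [sum_congr rfl (fun ψ _ => h1 ψ), h]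
    have h2 : ((u' : ℤ) : ZMod p) = ((u : ℤ) : ZMod p) ↔ (p : ℤ) ∣ u - u' :=
      ZMod.intCast_eq_intCast_iff_dvd_sub u' u p
    by_cases h3 : (p : ℤ) ∣ u - u'
    · rw [if_pos (h2.2 h3), if_pos ⟨hu, h3⟩, Nat.cast_sub hp.out.one_le]
      push_cast
      rfl
    · rw [if_neg (fun h4 => h3 (h2.1 h4)), if_neg (fun h4 => h3 h4.2)]
      simp

end

section
variable {p q : ℕ} [hp : Fact p.Prime] [hq : Fact q.Prime]

/-- the character sum over `U` -/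
noncomputable def SM (U : Finset ℤ) (ψ : DirichletCharacter ℂ p) (φ : DirichletCharacter ℂ q) : ℂ :=
  ∑ u ∈ U, ψ (u : ZMod p) * φ (u : ZMod q)

lemma parsevm (U : Finset ℤ) :
    ∑ ψ : DirichletCharacter ℂ p, ∑ φ : DirichletCharacter ℂ q, ‖SM U ψ φ‖ ^ 2 ≤ (p * q : ℝ) * coll U p q := by
  classical
  have hp1 : (1 : ℝ) ≤ p := by exact_mod_cast hp.out.one_le
  have hq1 : (1 : ℝ) ≤ q := by exact_mod_cast hq.out.one_le
  have h1 : ∀ (ψ : DirichletCharacter ℂ p) (φ : DirichletCharacter ℂ q), ((‖SM U ψ φ‖ ^ 2 : ℝ) : ℂ) =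
      ∑ z ∈ U ×ˢ U, (ψ (z.1 : ZMod p) * (starRingEnd ℂ) (ψ (z.2 : ZMod p))) *
        (φ (z.1 : ZMod q) * (starRingEnd ℂ) (φ (z.2 : ZMod q))) := by
    intro ψ φ
    rw [← Complex.normSq_eq_norm_sq, Complex.normSq_eq_conj_mul_self, mul_comm]
    unfold SM
    rw [map_sum, sum_mul_sum, ← sum_product']
    apply sum_congr rfl
    intro z _
    rw [map_mul]
    ring
  have h2 : ((∑ ψ : DirichletCharacter ℂ p, ∑ φ : DirichletCharacter ℂ q, ‖SM U ψ φ‖ ^ 2 : ℝ) : ℂ) =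
      ((∑ z ∈ U ×ˢ U, (if (¬ (p : ℤ) ∣ z.2) ∧ (p : ℤ) ∣ z.1 - z.2 then ((p : ℝ) - 1) else 0) *
        (if (¬ (q : ℤ) ∣ z.2) ∧ (q : ℤ) ∣ z.1 - z.2 then ((q : ℝ) - 1) else 0) : ℝ) : ℂ) := by
    rw [Complex.ofReal_sum, Complex.ofReal_sum]
    have e0 : ∀ ψ : DirichletCharacter ℂ p, ((∑ φ : DirichletCharacter ℂ q, ‖SM U ψ φ‖ ^ 2 : ℝ) : ℂ) =
        ∑ z ∈ U ×ˢ U, (ψ (z.1 : ZMod p) * (starRingEnd ℂ) (ψ (z.2 : ZMod p))) *
        ∑ φ : DirichletCharacter ℂ q, (φ (z.1 : ZMod q) * (starRingEnd ℂ) (φ (z.2 : ZMod q))) := by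
      intro ψ
      rw [Complex.ofReal_sum, sum_congr rfl (fun φ _ => h1 ψ φ), sum_comm]
      apply sum_congr rfl
      intro z _
      rw [mul_sum]
    rw [sum_congr rfl (fun ψ _ => e0 ψ), sum_comm]
    apply sum_congr rfl
    intro z _
    rw [← sum_mul, orth, orth, Complex.ofReal_mul]
  have h3 : ∑ ψ : DirichletCharacter ℂ p, ∑ φ : DirichletCharacter ℂ q, ‖SM U ψ φ‖ ^ 2 =
      ∑ z ∈ U ×ˢ U, (if (¬ (p : ℤ) ∣ z.2) ∧ (p : ℤ) ∣ z.1 - z.2 then ((p : ℝ) - 1) else 0) *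
        (if (¬ (q : ℤ) ∣ z.2) ∧ (q : ℤ) ∣ z.1 - z.2 then ((q : ℝ) - 1) else 0) := by exact_mod_cast h2
  rw [h3]
  have h4 : ∀ z ∈ U ×ˢ U, (if (¬ (p : ℤ) ∣ z.2) ∧ (p : ℤ) ∣ z.1 - z.2 then ((p : ℝ) - 1) else 0) *
        (if (¬ (q : ℤ) ∣ z.2) ∧ (q : ℤ) ∣ z.1 - z.2 then ((q : ℝ) - 1) else 0) ≤
      (if (p : ℤ) ∣ z.1 - z.2 ∧ (q : ℤ) ∣ z.1 - z.2 then (p * q : ℝ) else 0) := by
    intro z _
    by_cases h1 : (p : ℤ) ∣ z.1 - z.2 <;> by_cases h2 : (q : ℤ) ∣ z.1 - z.2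
    · rw [if_pos (show (p : ℤ) ∣ z.1 - z.2 ∧ (q : ℤ) ∣ z.1 - z.2 from ⟨h1, h2⟩)]
      apply mul_le_mul
      · split_ifs <;> linarith
      · split_ifs <;> linarith
      · split_ifs <;> linarith
      · linarith
    · rw [if_neg (fun h : _ ∧ _ => h2 h.2), mul_comm, if_neg (fun h : _ ∧ _ => h2 h.2)]
      simp
    · rw [if_neg (fun h : _ ∧ _ => h1 h.2), if_neg (fun h : _ ∧ _ => h1 h.1)]
      simp
    · rw [if_neg (fun h : _ ∧ _ => h1 h.2), if_neg (fun h : _ ∧ _ => h1 h.1)]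
      simp
  refine (sum_le_sum h4).trans (le_of_eq ?_)
  rw [← sum_filter, sum_const, nsmul_eq_mul]
  unfold coll
  ring

/-- the covariance for two different primes -/
lemma cov2m (U V : Finset ℤ) (c : ℤ) (f g : ℤ → ℝ) (hf : Per p f) (hg : Per q g)
    (α β : ℝ) (hα0 : 0 ≤ α) (hβ0 : 0 ≤ β)
    (hα : ∀ ψ : DirichletCharacter ℂ p, ψ ≠ 1 → ‖fc (sh c f) ψ‖ ≤ α)
    (hβ : ∀ φ : DirichletCharacter ℂ q, φ ≠ 1 → ‖fc (sh c g) φ‖ ≤ β) :
    |∑ u ∈ U, ∑ v ∈ V, Gc p c f (u * v) * Gc q c g (u * v)| ≤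
      α * β * (p * q) * Real.sqrt (coll U p q * coll V p q) := by
  classical
  have hp0 : (0 : ℝ) < p := by exact_mod_cast hp.out.pos
  have hq0 : (0 : ℝ) < q := by exact_mod_cast hq.out.pos
  obtain ⟨A, hA⟩ : ∃ A, A = univ.filter (fun ψ : DirichletCharacter ℂ p => ψ ≠ 1) := ⟨_, rfl⟩
  obtain ⟨B, hB⟩ : ∃ B, B = univ.filter (fun φ : DirichletCharacter ℂ q => φ ≠ 1) := ⟨_, rfl⟩
  have h1 : ((∑ u ∈ U, ∑ v ∈ V, Gc p c f (u * v) * Gc q c g (u * v) : ℝ) : ℂ) =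
      ∑ ψ ∈ A, ∑ φ ∈ B, fc (sh c f) ψ * fc (sh c g) φ * (SM U ψ φ * SM V ψ φ) := by
    have e3 : ∀ ψ ∈ A, ∀ φ ∈ B, fc (sh c f) ψ * fc (sh c g) φ * (SM U ψ φ * SM V ψ φ) =
        ∑ u ∈ U, ∑ v ∈ V, fc (sh c f) ψ * fc (sh c g) φ *
          ((ψ (u : ZMod p) * φ (u : ZMod q)) * (ψ (v : ZMod p) * φ (v : ZMod q))) := by
      intro ψ _ φ _
      unfold SM
      rw [sum_mul_sum, mul_sum]
      apply sum_congr rfl
      intro u _
      rw [mul_sum]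
    rw [sum_congr rfl (fun ψ hψ => sum_congr rfl (fun φ hφ => e3 ψ hψ φ hφ))]
    have e4 : ∀ u ∈ U, ((∑ v ∈ V, Gc p c f (u * v) * Gc q c g (u * v) : ℝ) : ℂ) =
        ∑ v ∈ V, ∑ ψ ∈ A, ∑ φ ∈ B, fc (sh c f) ψ * fc (sh c g) φ *
          ((ψ (u : ZMod p) * φ (u : ZMod q)) * (ψ (v : ZMod p) * φ (v : ZMod q))) := by
      intro u _
      rw [Complex.ofReal_sum]
      apply sum_congr rfl
      intro v _
      rw [Complex.ofReal_mul, Gc_eq c f hf, Gc_eq c g hg, hA, hB, sum_mul_sum]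
      apply sum_congr rfl
      intro ψ _
      apply sum_congr rfl
      intro φ _
      push_cast
      rw [map_mul, map_mul]
      ring
    rw [Complex.ofReal_sum, sum_congr rfl e4]
    have e5 : ∀ u ∈ U, ∑ v ∈ V, ∑ ψ ∈ A, ∑ φ ∈ B, fc (sh c f) ψ * fc (sh c g) φ *
          ((ψ (u : ZMod p) * φ (u : ZMod q)) * (ψ (v : ZMod p) * φ (v : ZMod q))) =
        ∑ ψ ∈ A, ∑ φ ∈ B, ∑ v ∈ V, fc (sh c f) ψ * fc (sh c g) φ *
          ((ψ (u : ZMod p) * φ (u : ZMod q)) * (ψ (v : ZMod p) * φ (v : ZMod q))) := by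
      intro u _
      rw [sum_comm]
      apply sum_congr rfl
      intro ψ _
      rw [sum_comm]
    rw [sum_congr rfl e5, sum_comm]
    apply sum_congr rfl
    intro ψ _
    rw [sum_comm]
  rw [← Real.norm_eq_abs, ← Complex.norm_real, h1]
  have hsub : ∀ (W : Finset ℤ), ∑ ψ ∈ A, ∑ φ ∈ B, ‖SM W ψ φ‖ ^ 2 ≤ (p * q : ℝ) * coll W p q := by
    intro W
    refine le_trans ?_ (parsevm (p := p) (q := q) W)
    calc ∑ ψ ∈ A, ∑ φ ∈ B, ‖SM W ψ φ‖ ^ 2 ≤ ∑ ψ ∈ A, ∑ φ : DirichletCharacter ℂ q, ‖SM W ψ φ‖ ^ 2 :=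
          sum_le_sum fun ψ _ => sum_le_sum_of_subset_of_nonneg (subset_univ _) fun _ _ _ => by positivity
      _ ≤ _ := sum_le_sum_of_subset_of_nonneg (subset_univ _) fun _ _ _ => sum_nonneg fun _ _ => by positivity
  have hcs : ∑ ψ ∈ A, ∑ φ ∈ B, ‖SM U ψ φ‖ * ‖SM V ψ φ‖ ≤ (p * q) * Real.sqrt (coll U p q * coll V p q) := by
    rw [← sum_product' A B (fun ψ φ => ‖SM U ψ φ‖ * ‖SM V ψ φ‖)]
    have h2 := Real.sum_mul_le_sqrt_mul_sqrt (A ×ˢ B) (fun z => ‖SM U z.1 z.2‖) (fun z => ‖SM V z.1 z.2‖)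
    refine h2.trans ?_
    rw [sum_product' A B (fun ψ φ => ‖SM U ψ φ‖ ^ 2), sum_product' A B (fun ψ φ => ‖SM V ψ φ‖ ^ 2)]
    calc _ ≤ Real.sqrt ((p * q : ℝ) * coll U p q) * Real.sqrt ((p * q : ℝ) * coll V p q) :=
          mul_le_mul (Real.sqrt_le_sqrt (hsub U)) (Real.sqrt_le_sqrt (hsub V)) (Real.sqrt_nonneg _) (Real.sqrt_nonneg _)
      _ = _ := by
          rw [← Real.sqrt_mul (by positivity)]
          have e : (p * q : ℝ) * coll U p q * ((p * q : ℝ) * coll V p q) = ((p : ℝ) * q) ^ 2 * (coll U p q * coll V p q) := by ring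
          rw [e, Real.sqrt_mul (by positivity), Real.sqrt_sq (by positivity)]
  calc ‖∑ ψ ∈ A, ∑ φ ∈ B, fc (sh c f) ψ * fc (sh c g) φ * (SM U ψ φ * SM V ψ φ)‖ ≤
        ∑ ψ ∈ A, ∑ φ ∈ B, α * β * (‖SM U ψ φ‖ * ‖SM V ψ φ‖) := by
          refine (norm_sum_le _ _).trans (sum_le_sum fun ψ hψ => ?_)
          refine (norm_sum_le _ _).trans (sum_le_sum fun φ hφ => ?_)
          rw [norm_mul, norm_mul, norm_mul]
          apply mul_le_mul_of_nonneg_right _ (by positivity)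
          rw [hA, mem_filter] at hψ
          rw [hB, mem_filter] at hφ
          exact mul_le_mul (hα ψ hψ.2) (hβ φ hφ.2) (norm_nonneg _) hα0
    _ = α * β * ∑ ψ ∈ A, ∑ φ ∈ B, ‖SM U ψ φ‖ * ‖SM V ψ φ‖ := by
        rw [mul_sum]
        exact sum_congr rfl fun ψ _ => by rw [mul_sum]
    _ ≤ α * β * ((p * q) * Real.sqrt (coll U p q * coll V p q)) :=
        mul_le_mul_of_nonneg_left hcs (by positivity)
    _ = _ := by ring

end

/-- the second moment -/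
theorem secondm (U V : Finset ℤ) (c : ℤ) (x : ℕ) (P : Finset ℕ) (hP : ∀ p ∈ P, p.Prime ∧ p ≤ x) (f : ℕ → ℤ → ℝ)
    (hf : ∀ p n, 0 ≤ f p n ∧ f p n ≤ 1) (hper : ∀ p ∈ P, Per p (f p)) (T : ℝ) (hT0 : 0 ≤ T)
    (hT : ∀ (p : ℕ) (hp : p ∈ P), ∀ ψ : DirichletCharacter ℂ p, ψ ≠ 1 →
      ‖@fc p ⟨(hP p hp).1⟩ (@sh p ⟨(hP p hp).1⟩ c (f p)) ψ‖ ≤ T / Real.sqrt p) (Λ : ℝ) (hΛ0 : 0 ≤ Λ)
    (hΛU : ∀ u ∈ U, ∀ u' ∈ U, u ≠ u' → ((P.filter (fun p : ℕ => (p : ℤ) ∣ u - u')).card : ℝ) ≤ Λ)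
    (hΛV : ∀ u ∈ V, ∀ u' ∈ V, u ≠ u' → ((P.filter (fun p : ℕ => (p : ℤ) ∣ u - u')).card : ℝ) ≤ Λ) :
    ∑ u ∈ U, ∑ v ∈ V, (∑ p ∈ P, Gc p c (f p) (u * v)) ^ 2 ≤
      (P.card : ℝ) * (U.card * V.card) + T ^ 2 * x *
        Real.sqrt (((U.card : ℝ) * (P.card : ℝ) ^ 2 + (U.card : ℝ) ^ 2 * Λ ^ 2) *
          ((V.card : ℝ) * (P.card : ℝ) ^ 2 + (V.card : ℝ) ^ 2 * Λ ^ 2)) := by
  classical
  have hcent : ∀ p ∈ P, ∀ n, |Gc p c (f p) n| ≤ 1 := fun p hp n =>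
    Gc_abs p (hP p hp).1.two_le c (f p) (hf p) n
  have h1 : ∑ u ∈ U, ∑ v ∈ V, (∑ p ∈ P, Gc p c (f p) (u * v)) ^ 2 =
      ∑ p ∈ P, ∑ q ∈ P, ∑ u ∈ U, ∑ v ∈ V, Gc p c (f p) (u * v) * Gc q c (f q) (u * v) := by
    have e0 : ∀ u ∈ U, ∀ v ∈ V, (∑ p ∈ P, Gc p c (f p) (u * v)) ^ 2 =
        ∑ p ∈ P, ∑ q ∈ P, Gc p c (f p) (u * v) * Gc q c (f q) (u * v) := by
      intro u _ v _
      rw [sq, sum_mul_sum]
    rw [sum_congr rfl (fun u hu => sum_congr rfl (fun v hv => e0 u hu v hv))]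
    have e1 : ∀ u ∈ U, ∑ v ∈ V, ∑ p ∈ P, ∑ q ∈ P, Gc p c (f p) (u * v) * Gc q c (f q) (u * v) =
        ∑ p ∈ P, ∑ q ∈ P, ∑ v ∈ V, Gc p c (f p) (u * v) * Gc q c (f q) (u * v) := by
      intro u _
      rw [sum_comm]
      exact sum_congr rfl fun p _ => sum_comm
    rw [sum_congr rfl e1, sum_comm]
    exact sum_congr rfl fun p _ => sum_comm
  rw [h1]
  have hterm : ∀ p ∈ P, ∀ q ∈ P, ∑ u ∈ U, ∑ v ∈ V, Gc p c (f p) (u * v) * Gc q c (f q) (u * v) ≤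
      (if p = q then (U.card * V.card : ℝ) else 0) + T ^ 2 * x * (Real.sqrt (coll U p q) * Real.sqrt (coll V p q)) := by
    intro p hp q hq
    have hnn : 0 ≤ T ^ 2 * x * (Real.sqrt (coll U p q) * Real.sqrt (coll V p q)) := by positivity
    by_cases hpq : p = q
    · rw [if_pos hpq]
      have h2 : ∑ u ∈ U, ∑ v ∈ V, Gc p c (f p) (u * v) * Gc q c (f q) (u * v) ≤
          ∑ u ∈ U, ∑ v ∈ V, (1 : ℝ) := by
        apply sum_le_sum
        intro u _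
        apply sum_le_sum
        intro v _
        refine (le_abs_self _).trans ?_
        rw [abs_mul]
        exact mul_le_one₀ (hcent p hp _) (abs_nonneg _) (hcent q hq _)
      rw [sum_const, sum_const, nsmul_eq_mul, nsmul_eq_mul, mul_one] at h2
      linarith
    · rw [if_neg hpq, zero_add]
      refine (le_abs_self _).trans ?_
      have : Fact p.Prime := ⟨(hP p hp).1⟩
      have : Fact q.Prime := ⟨(hP q hq).1⟩
      have hp1 := (hP p hp).1.pos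
      have hq1 := (hP q hq).1.pos
      have hp0 : (0 : ℝ) < p := by exact_mod_cast hp1
      have hq0 : (0 : ℝ) < q := by exact_mod_cast hq1
      have hsp : 0 < Real.sqrt p := Real.sqrt_pos.2 hp0
      have hsq : 0 < Real.sqrt q := Real.sqrt_pos.2 hq0
      have h2 := cov2m U V c (f p) (f q) (hper p hp) (hper q hq) (T / Real.sqrt p) (T / Real.sqrt q)
        (by positivity) (by positivity) (hT p hp) (hT q hq)
      refine h2.trans ?_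
      rw [Real.sqrt_mul (Nat.cast_nonneg _)]
      apply mul_le_mul_of_nonneg_right _ (by positivity)
      have e1 : T / Real.sqrt p * (T / Real.sqrt q) * (p * q) = T ^ 2 * (Real.sqrt p * Real.sqrt q) := by
        have e2 : (p : ℝ) = Real.sqrt p * Real.sqrt p := (Real.mul_self_sqrt hp0.le).symm
        have e3 : (q : ℝ) = Real.sqrt q * Real.sqrt q := (Real.mul_self_sqrt hq0.le).symm
        have e4 : (p : ℝ) * q = Real.sqrt p * Real.sqrt p * (Real.sqrt q * Real.sqrt q) := by rw [← e2, ← e3]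
        rw [e4]
        field_simp
      rw [e1]
      apply mul_le_mul_of_nonneg_left _ (by positivity)
      have hx0 : (0 : ℝ) ≤ x := Nat.cast_nonneg _
      calc Real.sqrt p * Real.sqrt q ≤ Real.sqrt x * Real.sqrt x :=
            mul_le_mul (Real.sqrt_le_sqrt (by exact_mod_cast (hP p hp).2))
              (Real.sqrt_le_sqrt (by exact_mod_cast (hP q hq).2)) (Real.sqrt_nonneg _) (Real.sqrt_nonneg _)
        _ = x := Real.mul_self_sqrt hx0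
  refine (sum_le_sum fun p hp => sum_le_sum fun q hq => hterm p hp q hq).trans ?_
  simp only [sum_add_distrib]
  have e1 : ∑ p ∈ P, ∑ q ∈ P, (if p = q then (U.card * V.card : ℝ) else 0) = (P.card : ℝ) * (U.card * V.card) := by
    rw [sum_congr rfl (fun p hp => by rw [sum_ite_eq, if_pos hp])]
    rw [sum_const, nsmul_eq_mul]
  have e2 : ∑ p ∈ P, ∑ q ∈ P, T ^ 2 * x * (Real.sqrt (coll U p q) * Real.sqrt (coll V p q)) =
      T ^ 2 * x * ∑ z ∈ P ×ˢ P, Real.sqrt (coll U z.1 z.2) * Real.sqrt (coll V z.1 z.2) := by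
    rw [sum_product' P P (fun p q => Real.sqrt (coll U p q) * Real.sqrt (coll V p q)), mul_sum]
    exact sum_congr rfl fun p _ => by rw [mul_sum]
  rw [e1, e2]
  have h3 := Real.sum_mul_le_sqrt_mul_sqrt (P ×ˢ P) (fun z => Real.sqrt (coll U z.1 z.2)) (fun z => Real.sqrt (coll V z.1 z.2))
  have h4 : ∀ W : Finset ℤ, ∑ z ∈ P ×ˢ P, Real.sqrt (coll W z.1 z.2) ^ 2 = ∑ p ∈ P, ∑ q ∈ P, (coll W p q : ℝ) := by
    intro W
    rw [← sum_product' P P (fun p q => (coll W p q : ℝ))]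
    exact sum_congr rfl fun z _ => Real.sq_sqrt (Nat.cast_nonneg _)
  rw [h4, h4] at h3
  have h5 := sum_coll U P Λ hΛ0 hΛU
  have h6 := sum_coll V P Λ hΛ0 hΛV
  have h7 : ∑ z ∈ P ×ˢ P, Real.sqrt (coll U z.1 z.2) * Real.sqrt (coll V z.1 z.2) ≤
      Real.sqrt (((U.card : ℝ) * (P.card : ℝ) ^ 2 + (U.card : ℝ) ^ 2 * Λ ^ 2) *
          ((V.card : ℝ) * (P.card : ℝ) ^ 2 + (V.card : ℝ) ^ 2 * Λ ^ 2)) := by
    refine h3.trans ?_
    rw [Real.sqrt_mul (by positivity)]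
    exact mul_le_mul (Real.sqrt_le_sqrt h5) (Real.sqrt_le_sqrt h6) (Real.sqrt_nonneg _) (Real.sqrt_nonneg _)
  have h8 : 0 ≤ T ^ 2 * (x : ℝ) := by positivity
  have := mul_le_mul_of_nonneg_left h7 h8
  linarith

end Pool.Agent.T6.H1.Pm
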