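import Pool.Agent.T6.H1.Pm.Mom
import Pool.Agent.T6.H1.Sm.Sum

/-! # Shifted products of the elements of two arbitrary sets: one `x` -/

set_option autoImplicit false

namespace Pool.Agent.T6.H1.Pm

open Finset Filter
open Pool.Agent.R459.Eq (mean Per pi_lower' small_ev)
open Pool.Agent.R318.PR (GP mem_GP GP_card_le)
open Pool.Agent.T6.H1.Sm (Rep Fam count_div elem Cd cd_step all_abs)

/-- the mean over the shifted nonzero residues -/
lemma mu_mean {p : ℕ} (hp : p.Prime) (f : ℤ → ℝ) (hf : ∀ n, 0 ≤ f n ∧ f n ≤ 1) (hper : Per p f) (c : ℤ) :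
    |mu p c f - mean p f| ≤ 2 / p := by
  have hp2 : (2 : ℝ) ≤ p := by exact_mod_cast hp.two_le
  have hp0 : (0 : ℝ) < p := by linarith
  have hcast : ((p - 1 : ℕ) : ℝ) = p - 1 := by
    rw [Nat.cast_sub hp.one_le, Nat.cast_one]
  have h1 : ∑ t ∈ range p, f ((t : ℤ) + c) = ∑ t ∈ range p, f (t : ℤ) := by
    have : NeZero p := ⟨hp.ne_zero⟩
    have h2 : ∀ g : ℤ → ℝ, ∑ t ∈ range p, g (t : ℤ) = ∑ x : ZMod p, g ((x.val : ℕ) : ℤ) := by
      intro g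
      symm
      refine sum_nbij (fun x => x.val) ?_ ?_ ?_ ?_
      · intro x _
        exact mem_range.2 (ZMod.val_lt x)
      · intro x _ y _ hxy
        exact ZMod.val_injective p hxy
      · intro t ht
        rw [mem_coe, mem_range] at ht
        exact ⟨(t : ZMod p), mem_coe.2 (mem_univ _), ZMod.val_cast_of_lt ht⟩
      · intro x _
        rfl
    rw [h2 (fun t => f (t + c)), h2 f]
    symm
    rw [← Equiv.sum_comp (Equiv.addRight ((c : ℤ) : ZMod p))]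
    apply sum_congr rfl
    intro x _
    apply hper
    rw [← ZMod.intCast_zmod_eq_zero_iff_dvd]
    push_cast
    rw [ZMod.natCast_zmod_val, ZMod.natCast_zmod_val]
    show x + (c : ZMod p) - (x + (c : ZMod p)) = 0
    ring
  have h3 : ∑ t ∈ Ico 1 p, f ((t : ℤ) + c) = p * mean p f - f c := by
    have h4 : ∑ t ∈ range p, f ((t : ℤ) + c) = f c + ∑ t ∈ Ico 1 p, f ((t : ℤ) + c) := by
      rw [range_eq_Ico, sum_eq_sum_Ico_succ_bot hp.pos]
      simp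
    have h5 : (p : ℝ) * mean p f = ∑ t ∈ range p, f (t : ℤ) := by
      unfold mean
      field_simp
    rw [h5, ← h1, h4]
    ring
  have hm : 0 ≤ mean p f ∧ mean p f ≤ 1 := by
    unfold mean
    constructor
    · exact div_nonneg (sum_nonneg fun t _ => (hf _).1) hp0.le
    · rw [div_le_one hp0]
      refine (sum_le_card_nsmul _ _ 1 fun t _ => (hf _).2).trans ?_
      rw [card_range, nsmul_eq_mul, mul_one]
  have hfc := hf c
  have e : mu p c f - mean p f = (mean p f - f c) / (p - 1) := by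
    unfold mu
    rw [h3, hcast, eq_div_iff (by linarith), sub_mul, div_mul_cancel₀ _ (by linarith : (p : ℝ) - 1 ≠ 0)]
    ring
  rw [e, abs_div, abs_of_pos (by linarith : (0 : ℝ) < (p : ℝ) - 1), div_le_div_iff₀ (by linarith) hp0]
  have h6 : |mean p f - f c| ≤ 1 := by
    rw [abs_le]
    constructor <;> linarith [hm.1, hm.2, hfc.1, hfc.2]
  nlinarith [abs_nonneg (mean p f - f c)]

lemma sum_inv (S : Finset ℕ) (x : ℕ) (hS : ∀ p ∈ S, p.Prime ∧ p ≤ x) : ∑ p ∈ S, (2 : ℝ) / p ≤ 2 * (1 + Real.log x) := by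
  have h1 : ∑ p ∈ S, (2 : ℝ) / p = 2 * ∑ p ∈ S, ((p : ℝ))⁻¹ := by
    rw [mul_sum]
    exact sum_congr rfl fun p _ => div_eq_mul_inv _ _
  have h2 : ∑ p ∈ S, ((p : ℝ))⁻¹ ≤ (harmonic x : ℝ) := by
    rw [harmonic_eq_sum_Icc]
    push_cast
    apply sum_le_sum_of_subset_of_nonneg
    · intro p hp
      have := hS p hp
      rw [mem_Icc]
      exact ⟨this.1.one_le, this.2⟩
    · intro _ _ _
      positivity
  have h3 := harmonic_le_one_add_log x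
  rw [h1]
  linarith

open Classical in
/-- the primes that do not divide the shift -/
noncomputable def GQ (M x : ℕ) (c : ℤ) : Finset ℕ := (GP M x).filter (fun p : ℕ => ¬ (p : ℤ) ∣ c)

lemma mem_GQ (M x : ℕ) (c : ℤ) (p : ℕ) : p ∈ GQ M x c ↔ (p ≤ x ∧ p.Prime ∧ ¬ p ∣ M) ∧ ¬ (p : ℤ) ∣ c := by
  unfold GQ
  rw [mem_filter, mem_GP]

open Classical in
/-- the sum over all primes and the centred sum -/
lemma compare (M x : ℕ) (f : ℕ → ℤ → ℝ) (hf : ∀ p n, 0 ≤ f p n ∧ f p n ≤ 1)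
    (hper : ∀ p, p.Prime → ¬ p ∣ M → Per p (f p)) (c m : ℤ) (A : ℝ)
    (h1 : (((GP M x).filter (fun p : ℕ => (p : ℤ) ∣ c)).card : ℝ) ≤ A)
    (h2 : (((GP M x).filter (fun p : ℕ => (p : ℤ) ∣ m)).card : ℝ) ≤ 2 * A) :
    |∑ p ∈ GP M x, f p (m + c) - ∑ p ∈ GP M x, mean p (f p)| ≤
      |∑ p ∈ GQ M x c, Gc p c (f p) m| + 2 * (1 + Real.log x) + 3 * A := by
  have hmean : ∀ p ∈ GP M x, 0 ≤ mean p (f p) ∧ mean p (f p) ≤ 1 := by
    intro p hp
    rw [mem_GP] at hp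
    have hp0 : (0 : ℝ) < p := by exact_mod_cast hp.2.1.pos
    unfold mean
    constructor
    · exact div_nonneg (sum_nonneg fun t _ => (hf _ _).1) hp0.le
    · rw [div_le_one hp0]
      refine (sum_le_card_nsmul _ _ 1 fun t _ => (hf _ _).2).trans ?_
      rw [card_range, nsmul_eq_mul, mul_one]
  rw [← sum_sub_distrib, ← sum_filter_add_sum_filter_not (GP M x) (fun p : ℕ => ¬ (p : ℤ) ∣ c)
    (fun p => f p (m + c) - mean p (f p))]
  have h3 : |∑ p ∈ (GP M x).filter (fun p : ℕ => ¬ ¬ (p : ℤ) ∣ c), (f p (m + c) - mean p (f p))| ≤ A := by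
    refine (abs_sum_le_sum_abs _ _).trans ?_
    refine le_trans ?_ h1
    have e : (GP M x).filter (fun p : ℕ => ¬ ¬ (p : ℤ) ∣ c) = (GP M x).filter (fun p : ℕ => (p : ℤ) ∣ c) := by
      ext p
      simp
    rw [e]
    refine (sum_le_card_nsmul _ _ 1 fun p hp => ?_).trans ?_
    · have h4 := hmean p (mem_filter.1 hp).1
      have h5 := hf p (m + c)
      rw [abs_le]
      constructor <;> linarith [h4.1, h4.2, h5.1, h5.2]
    · rw [nsmul_eq_mul, mul_one]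
  have h4 : |∑ p ∈ (GP M x).filter (fun p : ℕ => ¬ (p : ℤ) ∣ c), (f p (m + c) - mean p (f p)) -
      ∑ p ∈ GQ M x c, Gc p c (f p) m| ≤ 2 * (1 + Real.log x) + 2 * A := by
    have e0 : (GP M x).filter (fun p : ℕ => ¬ (p : ℤ) ∣ c) = GQ M x c := rfl
    rw [e0, ← sum_sub_distrib]
    refine (abs_sum_le_sum_abs _ _).trans ?_
    have h5 : ∀ p ∈ GQ M x c, |f p (m + c) - mean p (f p) - Gc p c (f p) m| ≤
        2 / p + if (p : ℤ) ∣ m then 1 else 0 := by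
      intro p hp
      rw [mem_GQ] at hp
      have h6 := mu_mean hp.1.2.1 (f p) (hf p) (hper p hp.1.2.1 hp.1.2.2) c
      have h7 := mu_mem p hp.1.2.1.two_le c (f p) (hf p)
      have h8 := hmean p (by rw [mem_GP]; exact hp.1)
      have h9 := hf p (m + c)
      unfold Gc
      by_cases hm : (p : ℤ) ∣ m
      · rw [if_pos hm, if_pos hm, sub_zero]
        have h10 : (0 : ℝ) ≤ 2 / p := by positivity
        rw [abs_le]
        constructor <;> linarith [h8.1, h8.2, h9.1, h9.2]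
      · rw [if_neg hm, if_neg hm, add_zero]
        have e : f p (m + c) - mean p (f p) - (f p (m + c) - mu p c (f p)) = mu p c (f p) - mean p (f p) := by ring
        rw [e]
        exact h6
    refine (sum_le_sum h5).trans ?_
    rw [sum_add_distrib]
    have h6 := sum_inv (GQ M x c) x (fun p hp => by rw [mem_GQ] at hp; exact ⟨hp.1.2.1, hp.1.1⟩)
    have h7 : ∑ p ∈ GQ M x c, (if (p : ℤ) ∣ m then (1 : ℝ) else 0) ≤ 2 * A := by
      refine le_trans ?_ h2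
      rw [← sum_filter, sum_const, nsmul_eq_mul, mul_one]
      have h8 : (GQ M x c).filter (fun p : ℕ => (p : ℤ) ∣ m) ⊆ (GP M x).filter (fun p : ℕ => (p : ℤ) ∣ m) := by
        intro p hp
        rw [mem_filter, mem_GQ] at hp
        rw [mem_filter, mem_GP]
        exact ⟨hp.1.1, hp.2⟩
      exact_mod_cast card_le_card h8
    linarith
  obtain ⟨a, ha⟩ : ∃ a, a = ∑ p ∈ (GP M x).filter (fun p : ℕ => ¬ (p : ℤ) ∣ c), (f p (m + c) - mean p (f p)) := ⟨_, rfl⟩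
  obtain ⟨b, hb⟩ : ∃ b, b = ∑ p ∈ (GP M x).filter (fun p : ℕ => ¬ ¬ (p : ℤ) ∣ c), (f p (m + c) - mean p (f p)) := ⟨_, rfl⟩
  obtain ⟨g, hg⟩ : ∃ g, g = ∑ p ∈ GQ M x c, Gc p c (f p) m := ⟨_, rfl⟩
  rw [← ha, ← hg] at h4
  rw [← hb] at h3
  rw [← ha, ← hb, ← hg]
  rw [abs_le] at h3 h4 ⊢
  have h5 := neg_abs_le g
  have h6 := le_abs_self g
  constructor <;> linarith [h3.1, h3.2, h4.1, h4.2]

/-- the logarithm of the size is small compared with the number of the primes -/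
lemma L_small (η : ℝ) (hη : 0 < η) (ε : ℝ) (hε : 0 < ε) : ∃ X : ℕ, 4 ≤ X ∧ ∀ (x : ℕ) (L : ℝ), X ≤ x → 0 < L →
    L ^ (2 + η) ≤ x → L ≤ ε * Nat.primeCounting x := by
  have h1 := (isLittleO_log_rpow_atTop (show (0 : ℝ) < 1 / 4 by norm_num)).bound (show (0 : ℝ) < 1 by norm_num)
  have h2 : ∀ᶠ x : ℝ in atTop, 4 / ε ≤ x ^ (1 / 4 : ℝ) :=
    (tendsto_rpow_atTop (by norm_num)).eventually_ge_atTop _
  have h3 : ∀ᶠ x : ℝ in atTop, Real.log x ≤ x ^ (1 / 4 : ℝ) ∧ 4 / ε ≤ x ^ (1 / 4 : ℝ) := by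
    filter_upwards [h1, h2, eventually_ge_atTop (1 : ℝ)] with x hx hx' hx1
    rw [Real.norm_of_nonneg (Real.log_nonneg hx1), Real.norm_of_nonneg (by positivity), one_mul] at hx
    exact ⟨hx, hx'⟩
  obtain ⟨X, hX⟩ := eventually_atTop.1 ((tendsto_natCast_atTop_atTop (R := ℝ)).eventually h3)
  refine ⟨max X 4, le_max_right _ _, fun x L hx hL hLx => ?_⟩
  obtain ⟨hl, he⟩ := hX x ((le_max_left _ _).trans hx)
  have hx4 : 4 ≤ x := (le_max_right _ _).trans hx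
  have hx4' : (4 : ℝ) ≤ x := by exact_mod_cast hx4
  have hx0 : (0 : ℝ) < x := by linarith
  have hx1 : (1 : ℝ) ≤ x := by linarith
  obtain ⟨hpi, _, hinv⟩ := pi_lower' x hx4
  have hlog : 0 < Real.log x := Real.log_pos (by linarith)
  -- `π(x) ≥ x / (4 log x) ≥ x ^ (3/4) / 4`
  have h4 : (x : ℝ) ^ (3 / 4 : ℝ) / 4 ≤ Nat.primeCounting x := by
    rw [div_le_div_iff₀ hpi hx0, one_mul] at hinv
    have h5 : (x : ℝ) ≤ 4 * (x : ℝ) ^ (1 / 4 : ℝ) * Nat.primeCounting x := by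
      refine hinv.trans ?_
      apply mul_le_mul_of_nonneg_right _ hpi.le
      linarith
    have h6 : (x : ℝ) = (x : ℝ) ^ (3 / 4 : ℝ) * (x : ℝ) ^ (1 / 4 : ℝ) := by
      rw [← Real.rpow_add hx0]
      norm_num
    have h7 : 0 < (x : ℝ) ^ (1 / 4 : ℝ) := by positivity
    rw [h6] at h5
    have h8 : (x : ℝ) ^ (3 / 4 : ℝ) * (x : ℝ) ^ (1 / 4 : ℝ) ≤
        (4 * Nat.primeCounting x) * (x : ℝ) ^ (1 / 4 : ℝ) := by
      rw [← h6] at h5 ⊢
      linarith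
    have h9 := le_of_mul_le_mul_right h8 h7
    linarith
  have h5 : L ≤ (x : ℝ) ^ (1 / 2 : ℝ) := by
    have h6 : (L ^ (2 + η)) ^ (1 / (2 + η)) = L := by
      rw [← Real.rpow_mul hL.le, mul_one_div, div_self (by linarith : (2 + η) ≠ 0), Real.rpow_one]
    rw [← h6]
    calc (L ^ (2 + η)) ^ (1 / (2 + η)) ≤ (x : ℝ) ^ (1 / (2 + η)) :=
          Real.rpow_le_rpow (by positivity) hLx (by positivity)
      _ ≤ (x : ℝ) ^ (1 / 2 : ℝ) := by
          apply Real.rpow_le_rpow_of_exponent_le hx1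
          exact one_div_le_one_div_of_le (by norm_num) (by linarith)
  have h6 : (x : ℝ) ^ (1 / 2 : ℝ) * (4 / ε) ≤ (x : ℝ) ^ (3 / 4 : ℝ) := by
    calc (x : ℝ) ^ (1 / 2 : ℝ) * (4 / ε) ≤ (x : ℝ) ^ (1 / 2 : ℝ) * (x : ℝ) ^ (1 / 4 : ℝ) :=
          mul_le_mul_of_nonneg_left he (by positivity)
      _ = (x : ℝ) ^ (3 / 4 : ℝ) := by rw [← Real.rpow_add hx0]; norm_num
  calc L ≤ (x : ℝ) ^ (1 / 2 : ℝ) := h5
    _ = ε * ((x : ℝ) ^ (1 / 2 : ℝ) * (4 / ε) / 4) := by field_simp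
    _ ≤ ε * ((x : ℝ) ^ (3 / 4 : ℝ) / 4) := by
        apply mul_le_mul_of_nonneg_left _ hε.le
        linarith
    _ ≤ _ := mul_le_mul_of_nonneg_left h4 hε.le

open Classical in
/-- **one `x`** -/
theorem one_prod (M : ℕ) (f : ℕ → ℤ → ℝ) (δ : ℝ) (hF : Fam M f δ) (η : ℝ) (hη : 0 < η) (hη1 : η ≤ 1)
    (ε : ℝ) (hε : 0 < ε) : ∃ (C : ℝ) (X : ℕ), 0 < C ∧ 4 ≤ X ∧ ∀ (x N : ℕ) (c : ℤ) (U V : Finset ℤ), X ≤ x → 1 ≤ N →
      c ≠ 0 → |c| ≤ N → (∀ u ∈ U, u ≠ 0 ∧ |u| ≤ N) → (∀ v ∈ V, v ≠ 0 ∧ |v| ≤ N) →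
      (x : ℝ) ^ (2 + η) ≤ U.card * V.card → (x : ℝ) ^ η * Real.log (2 * N) ^ 2 ≤ U.card →
      (x : ℝ) ^ η * Real.log (2 * N) ^ 2 ≤ V.card → Real.log (2 * N) ^ (2 + η) ≤ x →
      (((U ×ˢ V).filter (fun z => ε * (Nat.primeCounting x : ℝ) <
        |∑ p ∈ GP M x, f p (z.1 * z.2 + c) - δ * Nat.primeCounting x|)).card : ℝ) ≤
        C * (x : ℝ) ^ (-(η / 8)) * (U.card * V.card) := by
  obtain ⟨C0, hC0, hdiv⟩ := Pool.Agent.H369R2.divisor_bound (η / 32) (by positivity)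
  obtain ⟨X1, hX1⟩ := hF.avg (ε / 4) (by positivity)
  obtain ⟨X3, hX34, hX3⟩ := small_ev 0 (ε / 8) (by positivity)
  obtain ⟨X4, hX44, hX4⟩ := L_small η hη (ε / 48) (by positivity)
  have hev : ∀ᶠ x : ℝ in atTop, Real.log x ≤ x ^ (η / 24) := by
    have h1 := (isLittleO_log_rpow_atTop (show 0 < η / 24 by positivity)).bound (show (0 : ℝ) < 1 by norm_num)
    filter_upwards [h1, eventually_ge_atTop (1 : ℝ)] with x hx hx1
    rw [Real.norm_of_nonneg (Real.log_nonneg hx1), Real.norm_of_nonneg (by positivity), one_mul] at hx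
    exact hx
  obtain ⟨X2, hX2⟩ := eventually_atTop.1 ((tendsto_natCast_atTop_atTop (R := ℝ)).eventually hev)
  refine ⟨4 / ε ^ 2 * (4 + 65 * (2 * C0 + 2) ^ 2), max (max X1 X2) (max X3 X4), by positivity,
    hX34.trans ((le_max_left _ _).trans (le_max_right _ _)), ?_⟩
  intro x N c U V hx hN hc0 hcN hU hV hab hLa hLb hLx
  have hx1 : X1 ≤ x := (le_max_left _ _).trans ((le_max_left _ _).trans hx)
  have hx2 : X2 ≤ x := (le_max_right _ _).trans ((le_max_left _ _).trans hx)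
  have hx3 : X3 ≤ x := (le_max_left _ _).trans ((le_max_right _ _).trans hx)
  have hx4' : X4 ≤ x := (le_max_right _ _).trans ((le_max_right _ _).trans hx)
  have hx4 : 4 ≤ x := hX34.trans hx3
  have hlog := hX2 x hx2
  have hx4r : (4 : ℝ) ≤ x := by exact_mod_cast hx4
  have hx0 : (0 : ℝ) < x := by linarith
  have hx1' : (1 : ℝ) ≤ x := by linarith
  obtain ⟨hpi, hsq, hinv⟩ := pi_lower' x hx4
  obtain ⟨L, hL⟩ : ∃ L : ℝ, L = Real.log (2 * N) := ⟨_, rfl⟩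
  rw [← hL] at hLa hLb hLx
  have hN1 : (1 : ℝ) ≤ N := by exact_mod_cast hN
  have hL0 : 0 < L := by rw [hL]; exact Real.log_pos (by linarith)
  have hLsm := hX4 x L hx4' hL0 hLx
  obtain ⟨π, hπ⟩ : ∃ π : ℝ, π = (Nat.primeCounting x : ℝ) := ⟨_, rfl⟩
  have ha0 : (0 : ℝ) < U.card := lt_of_lt_of_le (by positivity) hLa
  have hb0 : (0 : ℝ) < V.card := lt_of_lt_of_le (by positivity) hLb
  have hcardle : ((GQ M x c).card : ℝ) ≤ Nat.primeCounting x := by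
    refine le_trans ?_ (GP_card_le M x)
    unfold GQ
    exact_mod_cast card_le_card (filter_subset _ _)
  have hP : ∀ p ∈ GQ M x c, p.Prime ∧ p ≤ x := fun p hp => by
    rw [mem_GQ] at hp
    exact ⟨hp.1.2.1, hp.1.1⟩
  obtain ⟨T, hT⟩ : ∃ T : ℝ, T = (2 * C0 + 2) * (x : ℝ) ^ (η / 32) := ⟨_, rfl⟩
  have hT0 : 0 ≤ T := by rw [hT]; positivity
  have hxe1 : (1 : ℝ) ≤ (x : ℝ) ^ (η / 32) := Real.one_le_rpow hx1' (by positivity)
  have hcoT : ∀ (p : ℕ) (hp : p ∈ GQ M x c), ∀ ψ : DirichletCharacter ℂ p, ψ ≠ 1 →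
      ‖@Pool.Agent.H730R2.AA.Exp.fc p ⟨(hP p hp).1⟩ (@sh p ⟨(hP p hp).1⟩ c (f p)) ψ‖ ≤ T / Real.sqrt p := by
    intro p hp ψ hψ
    have hp' := hp
    rw [mem_GQ] at hp'
    have : Fact p.Prime := ⟨hp'.1.2.1⟩
    refine (fc_sh (f p) (hF.h01 p) (hF.per p hp'.1.2.1 hp'.1.2.2) _ (hF.rep p hp'.1.2.1 hp'.1.2.2) c hp'.2 ψ hψ).trans ?_
    apply div_le_div_of_nonneg_right _ (Real.sqrt_nonneg _)
    have hp1 : 1 ≤ p - 1 := by have := hp'.1.2.1.two_le; omega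
    have h1 := hdiv (p - 1) hp1
    have h2 : ((p - 1 : ℕ) : ℝ) ^ (η / 32) ≤ (x : ℝ) ^ (η / 32) := by
      apply Real.rpow_le_rpow (Nat.cast_nonneg _) _ (by positivity)
      exact_mod_cast (by omega : p - 1 ≤ x)
    have h3 := mul_le_mul_of_nonneg_left h2 hC0.le
    rw [hT, add_mul]
    nlinarith
  have hΛ : ∀ W : Finset ℤ, (∀ w ∈ W, w ≠ 0 ∧ |w| ≤ (N : ℤ)) → ∀ u ∈ W, ∀ u' ∈ W, u ≠ u' →
      (((GQ M x c).filter (fun p : ℕ => (p : ℤ) ∣ u - u')).card : ℝ) ≤ 2 * L := by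
    intro W hW u hu u' hu' hne
    rw [hL]
    apply count_div _ (fun p hp => (hP p hp).1) _ (sub_ne_zero.2 hne)
    have h1 := (hW u hu).2
    have h2 := (hW u' hu').2
    have h3 : (u - u').natAbs ≤ 2 * N := by
      rw [abs_le] at h1 h2
      omega
    exact_mod_cast h3
  have hms := secondm U V c x (GQ M x c) hP f hF.h01 (fun p hp => by
    rw [mem_GQ] at hp
    exact hF.per p hp.1.2.1 hp.1.2.2) T hT0 hcoT (2 * L) (by positivity) (hΛ U hU) (hΛ V hV)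
  obtain ⟨E, hE⟩ : ∃ E, E = (U ×ˢ V).filter (fun z => ε * (Nat.primeCounting x : ℝ) <
        |∑ p ∈ GP M x, f p (z.1 * z.2 + c) - δ * Nat.primeCounting x|) := ⟨_, rfl⟩
  rw [← hE]
  have hcdiv : (((GP M x).filter (fun p : ℕ => (p : ℤ) ∣ c)).card : ℝ) ≤ 2 * L := by
    rw [hL]
    apply count_div _ (fun p hp => ((mem_GP M x p).1 hp).2.1) _ hc0
    have h3 : c.natAbs ≤ 2 * N := by
      rw [abs_le] at hcN
      omega
    exact_mod_cast h3
  have hS : ∀ z ∈ E, (ε / 2 * π) ^ 2 ≤ (∑ p ∈ GQ M x c, Gc p c (f p) (z.1 * z.2)) ^ 2 := by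
    intro z hz
    rw [← sq_abs (∑ p ∈ GQ M x c, Gc p c (f p) (z.1 * z.2))]
    apply pow_le_pow_left₀ (by rw [hπ]; positivity)
    rw [hE, mem_filter] at hz
    have hzU := hU z.1 (mem_product.1 hz.1).1
    have hzV := hV z.2 (mem_product.1 hz.1).2
    have h3 := hz.2
    have h5 := hX1 x hx1
    have hmdiv : (((GP M x).filter (fun p : ℕ => (p : ℤ) ∣ z.1 * z.2)).card : ℝ) ≤ 2 * (2 * L) := by
      have h6 := count_div (GP M x) (fun p hp => ((mem_GP M x p).1 hp).2.1) (z.1 * z.2)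
        (mul_ne_zero hzU.1 hzV.1) ((2 * N : ℝ) ^ 2) ?_
      · rw [Real.log_pow, ← hL] at h6
        push_cast at h6
        linarith
      · have h7 : z.1.natAbs ≤ N := by have := hzU.2; rw [abs_le] at this; omega
        have h8 : z.2.natAbs ≤ N := by have := hzV.2; rw [abs_le] at this; omega
        rw [Int.natAbs_mul]
        have h9 : z.1.natAbs * z.2.natAbs ≤ (2 * N) ^ 2 := by
          calc z.1.natAbs * z.2.natAbs ≤ N * N := Nat.mul_le_mul h7 h8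
            _ ≤ (2 * N) ^ 2 := by nlinarith
        exact_mod_cast h9
    have h6 := compare M x f hF.h01 hF.per c (z.1 * z.2) (2 * L) hcdiv hmdiv
    have h7 := abs_sub_le (∑ p ∈ GP M x, f p (z.1 * z.2 + c)) (∑ p ∈ GP M x, mean p (f p))
      (δ * Nat.primeCounting x)
    have h8 := hX3 x hx3
    rw [hπ]
    linarith
  have hcheb : (E.card : ℝ) * (ε / 2 * π) ^ 2 ≤ ((GQ M x c).card : ℝ) * (U.card * V.card) + T ^ 2 * x *
        Real.sqrt (((U.card : ℝ) * ((GQ M x c).card : ℝ) ^ 2 + (U.card : ℝ) ^ 2 * (2 * L) ^ 2) *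
          ((V.card : ℝ) * ((GQ M x c).card : ℝ) ^ 2 + (V.card : ℝ) ^ 2 * (2 * L) ^ 2)) := by
    refine le_trans ?_ hms
    rw [← nsmul_eq_mul]
    refine (card_nsmul_le_sum E _ _ hS).trans ?_
    rw [← sum_product' U V (fun u v => (∑ p ∈ GQ M x c, Gc p c (f p) (u * v)) ^ 2)]
    apply sum_le_sum_of_subset_of_nonneg
    · rw [hE]; exact filter_subset _ _
    · intro z _ _
      exact sq_nonneg _
  have hsqrt : Real.sqrt (((U.card : ℝ) * ((GQ M x c).card : ℝ) ^ 2 + (U.card : ℝ) ^ 2 * (2 * L) ^ 2) *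
          ((V.card : ℝ) * ((GQ M x c).card : ℝ) ^ 2 + (V.card : ℝ) ^ 2 * (2 * L) ^ 2)) ≤
      65 * ((x : ℝ) ^ (-1 - η / 4)) * (U.card * V.card * π ^ 2) := by
    refine le_trans (Real.sqrt_le_sqrt ?_) (elem η x L U.card V.card π hη hη1 hx1' hL0 ha0 hb0
      (by rw [hπ]; exact hpi) (by rw [hπ]; exact hinv) hlog hab hLa hLb hLx)
    have hc2 : ((GQ M x c).card : ℝ) ^ 2 ≤ π ^ 2 := by
      rw [hπ]
      exact pow_le_pow_left₀ (Nat.cast_nonneg _) hcardle 2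
    gcongr
  have hπ0 : 0 < π := by rw [hπ]; exact hpi
  have hT2 : T ^ 2 * x * (65 * ((x : ℝ) ^ (-1 - η / 4)) * (U.card * V.card * π ^ 2)) ≤
      65 * (2 * C0 + 2) ^ 2 * (x : ℝ) ^ (-(η / 8)) * (U.card * V.card * π ^ 2) := by
    have e1 : T ^ 2 = (2 * C0 + 2) ^ 2 * (x : ℝ) ^ (η / 16) := by
      rw [hT, mul_pow, ← Real.rpow_natCast ((x : ℝ) ^ (η / 32)), ← Real.rpow_mul hx0.le]
      congr 2
      push_cast
      ring
    have e2 : (x : ℝ) ^ (η / 16) * x * (x : ℝ) ^ (-1 - η / 4) ≤ (x : ℝ) ^ (-(η / 8)) := by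
      have h1 : (x : ℝ) ^ (η / 16) * x * (x : ℝ) ^ (-1 - η / 4) = (x : ℝ) ^ (η / 16 + 1 + (-1 - η / 4)) := by
        rw [Real.rpow_add hx0, Real.rpow_add hx0, Real.rpow_one]
      rw [h1]
      exact Real.rpow_le_rpow_of_exponent_le hx1' (by linarith)
    calc T ^ 2 * x * (65 * ((x : ℝ) ^ (-1 - η / 4)) * (U.card * V.card * π ^ 2)) =
          65 * (2 * C0 + 2) ^ 2 * ((x : ℝ) ^ (η / 16) * x * (x : ℝ) ^ (-1 - η / 4)) * (U.card * V.card * π ^ 2) := by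
          rw [e1]; ring
      _ ≤ _ := by gcongr
  have hfirst : ((GQ M x c).card : ℝ) * (U.card * V.card) ≤ 4 * (x : ℝ) ^ (-(η / 8)) * (U.card * V.card * π ^ 2) := by
    have h1 : ((GQ M x c).card : ℝ) ≤ π := by rw [hπ]; exact hcardle
    have h2 : π ≤ 4 * (x : ℝ) ^ (-(η / 8)) * π ^ 2 := by
      have h3 : 1 / π ≤ 4 * (x : ℝ) ^ (-(η / 8)) := by
        rw [hπ]
        refine hinv.trans ?_
        rw [mul_div_assoc]
        apply mul_le_mul_of_nonneg_left _ (by norm_num)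
        rw [div_le_iff₀ hx0]
        refine hlog.trans ?_
        have h4 : (x : ℝ) ^ (-(η / 8)) * x = (x : ℝ) ^ (-(η / 8) + 1) := by
          rw [Real.rpow_add hx0, Real.rpow_one]
        rw [h4]
        exact Real.rpow_le_rpow_of_exponent_le hx1' (by linarith)
      have h5 := mul_le_mul_of_nonneg_right h3 (sq_nonneg π)
      have h6 : 1 / π * π ^ 2 = π := by field_simp
      linarith
    calc ((GQ M x c).card : ℝ) * (U.card * V.card) ≤ (4 * (x : ℝ) ^ (-(η / 8)) * π ^ 2) * (U.card * V.card) :=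
          mul_le_mul_of_nonneg_right (h1.trans h2) (by positivity)
      _ = _ := by ring
  have hfin : (E.card : ℝ) * (ε / 2 * π) ^ 2 ≤
      (4 + 65 * (2 * C0 + 2) ^ 2) * (x : ℝ) ^ (-(η / 8)) * (U.card * V.card) * π ^ 2 := by
    have h1 := mul_le_mul_of_nonneg_left hsqrt (show 0 ≤ T ^ 2 * (x : ℝ) by positivity)
    have e : (4 + 65 * (2 * C0 + 2) ^ 2) * (x : ℝ) ^ (-(η / 8)) * (U.card * V.card) * π ^ 2 =
      4 * (x : ℝ) ^ (-(η / 8)) * (U.card * V.card * π ^ 2) +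
      65 * (2 * C0 + 2) ^ 2 * (x : ℝ) ^ (-(η / 8)) * (U.card * V.card * π ^ 2) := by ring
    rw [e]
    linarith
  have hπ2 : 0 < (ε / 2 * π) ^ 2 := by positivity
  rw [← le_div_iff₀ hπ2] at hfin
  refine hfin.trans (le_of_eq ?_)
  field_simp
  norm_num

open Classical in
/-- **all `x`** -/
theorem all_prod (M : ℕ) (f : ℕ → ℤ → ℝ) (δ : ℝ) (hF : Fam M f δ) (N : ℤ → ℕ → ℕ) (hN : ∀ v, Monotone (N v))
    (K : ℝ) (hK : ∀ v x, |(N v x : ℝ) - ∑ p ∈ GP M x, f p v| ≤ K) (η : ℝ) (hη : 0 < η) (hη1 : η ≤ 1)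
    (ε : ℝ) (hε : 0 < ε) : ∃ (C : ℝ) (X₀ : ℕ), 0 < C ∧ 4 ≤ X₀ ∧ ∀ (Y N₀ : ℕ) (c : ℤ) (U V : Finset ℤ), X₀ ≤ Y → 1 ≤ N₀ →
      c ≠ 0 → |c| ≤ N₀ → (∀ u ∈ U, u ≠ 0 ∧ |u| ≤ N₀) → (∀ v ∈ V, v ≠ 0 ∧ |v| ≤ N₀) →
      Real.log (2 * N₀) ^ (2 + η) ≤ Y →
      (((U ×ˢ V).filter (fun z => ∃ x : ℕ, Y ≤ x ∧ Cd η (Real.log (2 * N₀)) U.card V.card x ∧
        ε * (Nat.primeCounting x : ℝ) < |(N (z.1 * z.2 + c) x : ℝ) - δ * Nat.primeCounting x|)).card : ℝ) ≤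
        C * (Y : ℝ) ^ (-(η / 16)) * (U.card * V.card) := by
  obtain ⟨ε₁, hε₁, hall⟩ := all_abs δ ε (η / 16) hε (by positivity)
  obtain ⟨C₁, X₁, hC₁, hX₁4, hone⟩ := one_prod M f δ hF (η / 2) (by positivity) (by linarith) (ε₁ / 2) (by positivity)
  obtain ⟨X₂, hX₂4, hsmall⟩ := small_ev K (ε₁ / 2) (by positivity)
  obtain ⟨C, X₀, hC, hX₀4, hX₀, hmain⟩ := hall C₁ (max X₁ X₂) hC₁
  obtain ⟨X₃, hX₃4, hstep⟩ := cd_step η hη hη1
  refine ⟨C, max X₀ X₃, hC, hX₀4.trans (le_max_left _ _), ?_⟩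
  intro Y N₀ c U V hY hN₀ hc0 hcN hU hV hLY
  have hN1 : (1 : ℝ) ≤ N₀ := by exact_mod_cast hN₀
  have hL0 : 0 < Real.log (2 * N₀) := Real.log_pos (by linarith)
  have h1 := hmain (ℤ × ℤ) (U ×ˢ V) (fun z => N (z.1 * z.2 + c)) (fun z => hN _)
    (fun x => Cd η (Real.log (2 * N₀)) U.card V.card x)
    (fun y => Cd (η / 2) (Real.log (2 * N₀)) U.card V.card y ∧ Real.log (2 * N₀) ^ (2 + η / 2) ≤ y)
    Y ((le_max_left _ _).trans hY)
    (fun x y hG hYx hYy hyx => hstep _ _ _ x y Y hL0 ((le_max_right _ _).trans hY) hLY hG hYx hYy hyx) ?_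
  · rw [card_product] at h1
    push_cast at h1
    exact h1
  · intro y hy hG'
    have hy1 : X₁ ≤ y := (le_max_left _ _).trans hy
    have hy2 : X₂ ≤ y := (le_max_right _ _).trans hy
    have h2 := hone y N₀ c U V hy1 hN₀ hc0 hcN hU hV hG'.1.1 hG'.1.2.1 hG'.1.2.2 hG'.2
    have e : η / 2 / 8 = η / 16 := by ring
    rw [e] at h2
    rw [card_product]
    push_cast
    refine le_trans ?_ h2
    have hsub : (U ×ˢ V).filter (fun z => ε₁ * (Nat.primeCounting y : ℝ) <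
        |(N (z.1 * z.2 + c) y : ℝ) - δ * Nat.primeCounting y|) ⊆
        (U ×ˢ V).filter (fun z => ε₁ / 2 * (Nat.primeCounting y : ℝ) <
        |∑ p ∈ GP M y, f p (z.1 * z.2 + c) - δ * Nat.primeCounting y|) := by
      intro z hz
      rw [mem_filter] at hz ⊢
      refine ⟨hz.1, ?_⟩
      have h3 := hsmall y hy2
      have h4 := hK (z.1 * z.2 + c) y
      have h5 := hz.2
      have h6 : 0 ≤ Real.log y := Real.log_nonneg (by exact_mod_cast (by omega : 1 ≤ y))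
      have h7 := abs_sub_le (N (z.1 * z.2 + c) y : ℝ) (∑ p ∈ GP M y, f p (z.1 * z.2 + c)) (δ * Nat.primeCounting y)
      linarith
    exact_mod_cast card_le_card hsub

end Pool.Agent.T6.H1.Pm
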